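import Pool.Agent.helper63.TI.SpecA

set_option autoImplicit false

namespace Pool.Agent.TI

open Polynomial NumberField Pool.Agent.GJ Pool.Agent.TK Pool.Agent.TQ Pool.Agent.TFQ Pool.Agent.TD Pool.Agent.AQ
open Pool.Agent.FJ (VT Om chiO IsFrobO rf rs)
open scoped TensorProduct

noncomputable section

section AVGaux

variable {q : ℕ} [Fact q.Prime] {V : Type} [AddCommGroup V] [Module ℚ_[q] V]

theorem AVG_mul (A B : Module.End ℚ_[q] V) (x : PadicAlgCl q ⊗[ℚ_[q]] V) : bs (A * B) x = bs A (bs B x) := by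
  have h : LinearMap.baseChange (PadicAlgCl q) (A * B) =
      LinearMap.baseChange (PadicAlgCl q) A ∘ₗ LinearMap.baseChange (PadicAlgCl q) B := LinearMap.baseChange_comp _ _
  exact congrArg (fun f => f x) h

theorem AVG_one (x : PadicAlgCl q ⊗[ℚ_[q]] V) : bs (1 : Module.End ℚ_[q] V) x = x := by
  have h : LinearMap.baseChange (PadicAlgCl q) (1 : Module.End ℚ_[q] V) = LinearMap.id := LinearMap.baseChange_id
  exact congrArg (fun f => f x) h

theorem AVG_pow (A : Module.End ℚ_[q] V) (x : PadicAlgCl q ⊗[ℚ_[q]] V) (c : PadicAlgCl q) (hx : bs A x = c • x) (j : ℕ) :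
    bs (A ^ j) x = c ^ j • x := by
  induction j with
  | zero => rw [pow_zero, pow_zero, one_smul, AVG_one]
  | succ j ih => rw [pow_succ, AVG_mul, hx, map_smul, ih, smul_smul, pow_succ, mul_comm]

theorem AVG_sum (s : Finset ℕ) (A : ℕ → Module.End ℚ_[q] V) (x : PadicAlgCl q ⊗[ℚ_[q]] V) :
    bs (∑ j ∈ s, A j) x = ∑ j ∈ s, bs (A j) x := by
  classical
  induction s using Finset.induction_on with
  | empty =>
    rw [Finset.sum_empty, Finset.sum_empty]
    have h : LinearMap.baseChange (PadicAlgCl q) (0 : Module.End ℚ_[q] V) = 0 := LinearMap.baseChange_zero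
    exact congrArg (fun f => f x) h
  | insert a s ha ih =>
    rw [Finset.sum_insert ha, Finset.sum_insert ha, ← ih]
    have h : LinearMap.baseChange (PadicAlgCl q) (A a + ∑ j ∈ s, A j) =
      LinearMap.baseChange (PadicAlgCl q) (A a) + LinearMap.baseChange (PadicAlgCl q) (∑ j ∈ s, A j) :=
      LinearMap.baseChange_add _ _
    exact congrArg (fun f => f x) h

end AVGaux

theorem AVG_geo {K : Type} [Field K] (x : K) (n s : ℕ) (hx : x ^ n = 1) (hx1 : x ≠ 1) (hs : n ∣ s) :
    ∑ j ∈ Finset.range s, x ^ j = 0 := by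
  obtain ⟨m, rfl⟩ := hs
  rw [geom_sum_eq hx1, pow_mul, hx, one_pow, sub_self, zero_div]

theorem AVG : AVG_stmt := by
  intro q _ V _ _ P P' Y n κ ξ u y hP hκ hinj hξ hPu hYu s' hs t
  have hn : n ≠ 0 := by
    rintro rfl
    exact t.elim0
  have hξ0 : ∀ t, ξ t ≠ 0 := by
    intro t h0
    have := hξ t
    rw [h0, zero_pow hn] at this
    exact hκ this.symm
  have hP'u : ∀ t, bs P' (u t) = (ξ t)⁻¹ • u t := by
    intro t
    have h1 : bs P' (bs P (u t)) = u t := by rw [← AVG_mul, hP, AVG_one]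
    rw [hPu t, map_smul] at h1
    rw [← h1, smul_smul, inv_mul_cancel₀ (hξ0 t), one_smul, h1]
  have h1 : ∀ j : ℕ, bs (P' ^ j * Y * P ^ j) (u t) = ∑ t', (y t' t * (ξ t / ξ t') ^ j) • u t' := by
    intro j
    rw [AVG_mul, AVG_mul, AVG_pow P (u t) (ξ t) (hPu t) j, map_smul, map_smul, hYu t, map_sum, Finset.smul_sum]
    refine Finset.sum_congr rfl fun t' _ => ?_
    rw [map_smul, AVG_pow P' (u t') (ξ t')⁻¹ (hP'u t') j, smul_smul, smul_smul]
    congr 1
    rw [div_eq_mul_inv, mul_pow]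
    ring
  unfold av
  rw [AVG_sum, Finset.sum_congr rfl fun j _ => h1 j, Finset.sum_comm]
  rw [Finset.sum_eq_single t]
  · have h2 : ∀ j ∈ Finset.range s', (y t t * (ξ t / ξ t) ^ j) • u t = y t t • u t := by
      intro j _
      rw [div_self (hξ0 t), one_pow, mul_one]
    rw [Finset.sum_congr rfl h2, Finset.sum_const, Finset.card_range, ← Nat.cast_smul_eq_nsmul (PadicAlgCl q), smul_smul]
  · intro t' _ ht'
    rw [← Finset.sum_smul, ← Finset.mul_sum]
    have h3 : (ξ t / ξ t') ^ n = 1 := by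
      rw [div_pow, hξ t, hξ t', div_self hκ]
    have h4 : ξ t / ξ t' ≠ 1 := by
      intro h
      rw [div_eq_one_iff_eq (hξ0 t')] at h
      exact ht' (hinj h).symm
    rw [AVG_geo _ n s' h3 h4 hs, mul_zero, zero_smul]
  · intro h
    exact absurd (Finset.mem_univ _) h

end

end Pool.Agent.TI
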