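import Pool.Agent.helper63.TI.SpecG

/-! # Project ti, row GS: Gauss sums and Jacobi sums -/

set_option autoImplicit false

namespace Pool.Agent.TI

open Polynomial NumberField Pool.Agent.GJ Pool.Agent.TK Pool.Agent.TQ Pool.Agent.TFQ Pool.Agent.TD
open Pool.Agent.FJ (VT Om chiO IsFrobO rf rs)

noncomputable section

/-- A primitive additive character of `F` with values in `Om`. -/
theorem GS_psi (F : Type) [Field F] [Fintype F] : ∃ ψ : AddChar F Om, ψ.IsPrimitive := by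
  have h0 : ringChar Om = 0 := ringChar.eq_zero
  have hF : ringChar F ≠ 0 := by
    have := CharP.char_is_prime F (ringChar F)
    exact this.ne_zero
  have h : ringChar Om ≠ ringChar F := by rw [h0]; exact hF.symm
  let ψ := AddChar.FiniteField.primitiveChar F Om h
  haveI : NeZero (ψ.n : ℕ) := ⟨ψ.n.pos.ne'⟩
  haveI : FiniteDimensional Om (CyclotomicField ψ.n Om) :=
    IsCyclotomicExtension.finiteDimensional {(ψ.n : ℕ)} Om (CyclotomicField ψ.n Om)
  haveI : Algebra.IsAlgebraic Om (CyclotomicField ψ.n Om) := Algebra.IsAlgebraic.of_finite _ _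
  let φ : CyclotomicField ψ.n Om →+* Om := (IsAlgClosed.lift : CyclotomicField ψ.n Om →ₐ[Om] Om).toRingHom
  exact ⟨(φ : CyclotomicField ψ.n Om →* Om).compAddChar ψ.char,
    ψ.prim.compMulHom_of_isPrimitive φ.injective⟩

theorem GS_per {F : Type} [Field F] {l : ℕ} {χ : MulChar F Om} (hχl : χ ^ l = 1) (m t : ℕ) :
    χ ^ (m * (t % l)) = χ ^ (m * t) := by
  have h : χ ^ (m * t) = χ ^ (m * (l * (t / l) + t % l)) := by rw [Nat.div_add_mod]
  rw [h, mul_add, pow_add, mul_left_comm, pow_mul χ l, hχl, one_pow, one_mul]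

theorem GS_neg {F : Type} [Field F] {l : ℕ} {χ : MulChar F Om} (hl : l.Prime) (h2 : 2 < l)
    (hχl : χ ^ l = 1) : χ (-1) = 1 := by
  have h3 : χ (-1) ^ l = 1 := by
    have h4 : (χ ^ l) (-1) = 1 := by
      rw [hχl, MulChar.one_apply (isUnit_one.neg)]
    rwa [MulChar.pow_apply' χ hl.ne_zero] at h4
  have h4 : χ (-1) ^ 2 = 1 := by
    rw [← map_pow, neg_one_sq, map_one]
  have h5 : l = 2 * (l / 2) + 1 := by
    have := hl.odd_of_ne_two (by omega)
    rcases this with ⟨k, hk⟩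
    omega
  rw [h5, pow_add, pow_mul, h4, one_pow, one_mul, pow_one] at h3
  exact h3

theorem GS_prod (hQG1 : QG1_stmt) (F : Type) [Field F] [Fintype F] [DecidableEq F] (l : ℕ)
    (χ : MulChar F Om) (m : ℕ) (hl : l.Prime) (h2 : 2 < l) (hχ : orderOf χ = l) (hm : 0 < m) (hml : m < l)
    (ψ : AddChar F Om) (hψ : ψ.IsPrimitive) (a : ℕ) (ha : 0 < a) (hal : a < l) :
    (cq F : Om) * ∏ k ∈ Finset.Ico 1 (l - 1), cJQ χ (muJ l a k) ![-1, 1] m =
      gaussSum (χ ^ (m * a)) ψ ^ l := by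
  have hχl : χ ^ l = 1 := by rw [← hχ]; exact pow_orderOf_eq_one χ
  have hne : ∀ t : ℕ, ¬ l ∣ t → χ ^ (m * t) ≠ 1 := by
    intro t ht h
    have h1 : l ∣ m * t := by rw [← hχ]; exact orderOf_dvd_of_pow_eq_one h
    rcases (Nat.Prime.dvd_mul hl).1 h1 with h3 | h3
    · exact absurd (Nat.le_of_dvd hm h3) (not_le.2 hml)
    · exact ht h3
  have hla : ¬ l ∣ a := Nat.not_dvd_of_pos_of_lt ha hal
  have hmul : ∀ k, 0 < k → k < l → ¬ l ∣ k * a := by
    intro k hk hkl h
    rcases (Nat.Prime.dvd_mul hl).1 h with h3 | h3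
    · exact Nat.not_dvd_of_pos_of_lt hk hkl h3
    · exact hla h3
  have hneg := GS_neg hl h2 hχl
  have hstep : ∀ k, 0 < k → k + 1 < l → cJQ χ (muJ l a k) ![-1, 1] m *
      gaussSum (χ ^ (m * ((k + 1) * a))) ψ = gaussSum (χ ^ (m * a)) ψ * gaussSum (χ ^ (m * (k * a))) ψ := by
    intro k hk hkl
    have hs : χ ^ (m * ∑ j, muJ l a k j) = χ ^ (m * ((k + 1) * a)) := by
      rw [Fin.sum_univ_two]
      show χ ^ (m * (a + (k * a) % l)) = _
      rw [mul_add, pow_add, GS_per hχl, ← pow_add]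
      congr 1
      ring
    have h1 := hQG1 F χ ψ 1 (muJ l a k) ![-1, 1] m hm ?_ ?_ ?_
    · rw [hs] at h1
      have h3 : ∏ j, χ ((![-1, 1] : Fin (1 + 1) → F) j) ^ (m * muJ l a k j) = 1 := by
        rw [Fin.prod_univ_two]
        show χ (-1) ^ (m * muJ l a k 0) * χ 1 ^ (m * muJ l a k 1) = 1
        rw [hneg, map_one, one_pow, one_pow, one_mul]
      rw [h3, mul_one, Fin.prod_univ_two] at h1
      rw [h1]
      show gaussSum (χ ^ (m * a)) ψ * gaussSum (χ ^ (m * ((k * a) % l))) ψ = _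
      rw [GS_per hχl]
    · intro j
      fin_cases j
      · exact ha
      · show 0 < (k * a) % l
        exact Nat.pos_of_ne_zero fun h => hmul k hk (by omega) (Nat.dvd_of_mod_eq_zero h)
    · rw [hs]
      exact hne _ (hmul (k + 1) (by omega) hkl)
    · intro j
      fin_cases j
      · exact neg_ne_zero.mpr one_ne_zero
      · exact one_ne_zero
  have hind : ∀ K, 1 ≤ K → K < l → (∏ k ∈ Finset.Ico 1 K, cJQ χ (muJ l a k) ![-1, 1] m) *
      gaussSum (χ ^ (m * (K * a))) ψ = gaussSum (χ ^ (m * a)) ψ ^ K := by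
    intro K hK
    induction K, hK using Nat.le_induction with
    | base =>
      intro _
      rw [Finset.Ico_self, Finset.prod_empty, one_mul, one_mul, pow_one]
    | succ K hK ih =>
      intro hKl
      rw [Finset.prod_Ico_succ_top hK, mul_assoc, hstep K hK hKl, mul_left_comm, ih (by omega), pow_succ,
        mul_comm]
  have h1 := hind (l - 1) (by omega) (by omega)
  have h3 : gaussSum (χ ^ (m * ((l - 1) * a))) ψ * gaussSum (χ ^ (m * a)) ψ = (cq F : Om) := by
    have h4 := gaussSum_mul_gaussSum_eq_card (hne a hla) hψ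
    have h5 : (χ ^ (m * a))⁻¹ = χ ^ (m * ((l - 1) * a)) := by
      rw [inv_eq_iff_mul_eq_one, ← pow_add]
      have : m * a + m * ((l - 1) * a) = l * (m * a) := by
        obtain ⟨r, rfl⟩ : ∃ r, l = r + 1 := ⟨l - 1, by omega⟩
        rw [Nat.add_sub_cancel]
        ring
      rw [this, pow_mul, hχl, one_pow]
    have h6 : gaussSum (χ ^ (m * ((l - 1) * a))) ψ⁻¹ = gaussSum (χ ^ (m * ((l - 1) * a))) ψ := by
      have h7 := gaussSum_mulShift (χ ^ (m * ((l - 1) * a))) ψ (-1 : Fˣ)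
      have h8 : (χ ^ (m * ((l - 1) * a))) ((-1 : Fˣ) : F) = 1 := by
        rw [Units.val_neg, Units.val_one]
        have h9 : m * ((l - 1) * a) ≠ 0 := by
          have : 0 < m * ((l - 1) * a) := by
            have : 0 < l - 1 := by omega
            positivity
          omega
        rw [MulChar.pow_apply' χ h9, hneg, one_pow]
      rw [h8, one_mul] at h7
      rw [← h7]
      congr 1
      ext x
      rw [AddChar.inv_apply, AddChar.mulShift_apply, Units.val_neg, Units.val_one, neg_one_mul]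
    rw [← h4, h5, h6, mul_comm]
  calc (cq F : Om) * ∏ k ∈ Finset.Ico 1 (l - 1), cJQ χ (muJ l a k) ![-1, 1] m
      = ((∏ k ∈ Finset.Ico 1 (l - 1), cJQ χ (muJ l a k) ![-1, 1] m) *
          gaussSum (χ ^ (m * ((l - 1) * a))) ψ) * gaussSum (χ ^ (m * a)) ψ := by
        rw [mul_assoc, h3, mul_comm]
    _ = gaussSum (χ ^ (m * a)) ψ ^ (l - 1 + 1) := by rw [h1, pow_succ]
    _ = _ := by rw [Nat.sub_add_cancel (by omega)]

theorem GS (hQG1 : QG1_stmt) : GS_stmt := by
  intro F _ _ _ l χ n μ lam m hl h2 hχ hμ hS hlam hm hml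
  obtain ⟨ψ, hψ⟩ := GS_psi F
  have hQ0 : (cq F : Om) ≠ 0 := by exact_mod_cast Fintype.card_ne_zero
  have hχl : χ ^ l = 1 := by rw [← hχ]; exact pow_orderOf_eq_one χ
  have hne : ∀ t : ℕ, ¬ l ∣ t → χ ^ (m * t) ≠ 1 := by
    intro t ht h
    have h1 : l ∣ m * t := by rw [← hχ]; exact orderOf_dvd_of_pow_eq_one h
    rcases (Nat.Prime.dvd_mul hl).1 h1 with h3 | h3
    · exact absurd (Nat.le_of_dvd hm h3) (not_le.2 hml)
    · exact ht h3
  have h1 := hQG1 F χ ψ n μ lam m hm (fun j => (hμ j).1) (hne _ hS) hlam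
  have hs0 : 0 < (∑ j, μ j) % l := Nat.pos_of_ne_zero fun h => hS (Nat.dvd_of_mod_eq_zero h)
  have hsl : (∑ j, μ j) % l < l := Nat.mod_lt _ hl.pos
  have h3 := GS_prod hQG1 F l χ m hl h2 hχ hm hml ψ hψ ((∑ j, μ j) % l) hs0 hsl
  rw [GS_per hχl] at h3
  have h4 : ∀ j, (cq F : Om) * ∏ k ∈ Finset.Ico 1 (l - 1), cJQ χ (muJ l (μ j) k) ![-1, 1] m =
      gaussSum (χ ^ (m * μ j)) ψ ^ l := fun j =>
    GS_prod hQG1 F l χ m hl h2 hχ hm hml ψ hψ (μ j) (hμ j).1 (hμ j).2
  have h5 := congrArg (· ^ l) h1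
  simp only [mul_pow] at h5
  have h6 : (∏ j, χ (lam j) ^ (m * μ j)) ^ l = 1 := by
    rw [← Finset.prod_pow]
    refine Finset.prod_eq_one fun j _ => ?_
    rw [← pow_mul, mul_comm, pow_mul]
    have h7 : χ (lam j) ^ l = 1 := by
      have h8 : (χ ^ l) (lam j) = 1 := by
        rw [hχl, MulChar.one_apply (Ne.isUnit (hlam j))]
      rwa [MulChar.pow_apply' χ hl.ne_zero] at h8
    rw [h7, one_pow]
  rw [h6, mul_one, ← Finset.prod_pow, ← h3] at h5
  rw [Finset.prod_congr rfl fun j _ => (h4 j).symm, Finset.prod_mul_distrib, Finset.prod_const,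
    Finset.card_univ, Fintype.card_fin, pow_succ] at h5
  apply mul_left_cancel₀ hQ0
  linear_combination h5

end

end Pool.Agent.TI
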